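import Pool.Agent.helper36.NF.SpecD

/-!
# Row RED (MP_37e5fa_nt): from `h * D = g` to `u * D = q (X)`
-/

set_option autoImplicit false

open Polynomial Filter

namespace Pool.Agent.NoFormula

/-- the subring of the single exponential sequences -/
theorem RED_ring (hSEC : SEC_stmt) : ∃ R : Subring (ℕ → ℤ), ∀ f : ℕ → ℤ, f ∈ R ↔ SingleExp f := by
  obtain ⟨hadd, hneg, hmul, hconst, -, -, -, -⟩ := hSEC
  refine ⟨{ carrier := {f | SingleExp f}
            mul_mem' := ?_
            one_mem' := ?_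
            add_mem' := ?_
            zero_mem' := ?_
            neg_mem' := ?_ }, ?_⟩
  · intro a b ha hb
    exact hmul a b ha hb
  · exact hconst 1
  · intro a b ha hb
    exact hadd a b ha hb
  · exact hconst 0
  · intro a ha
    exact hneg a ha
  · intro f
    exact Iff.rfl

/-- the polynomial with given coefficients -/
theorem RED_poly {R : Type} [CommRing R] (n : ℕ) (a : ℕ → R) :
    (∑ c ∈ Finset.range (n + 1), monomial c (a c)).natDegree ≤ n ∧
    (∑ c ∈ Finset.range (n + 1), monomial c (a c)).coeff n = a n ∧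
    ∀ (φ : R →+* ℤ) (x : ℤ), eval₂ φ x (∑ c ∈ Finset.range (n + 1), monomial c (a c)) =
      ∑ c ∈ Finset.range (n + 1), φ (a c) * x ^ c := by
  refine ⟨?_, ?_, ?_⟩
  · apply natDegree_sum_le_of_forall_le
    intro i hi
    have : i ≤ n := by
      have := Finset.mem_range.mp hi
      omega
    exact (natDegree_monomial_le _).trans this
  · rw [finset_sum_coeff]
    simp only [coeff_monomial]
    rw [Finset.sum_ite_eq' (Finset.range (n + 1)) n a]
    simp
  · intro φ x
    rw [eval₂_finset_sum]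
    apply Finset.sum_congr rfl
    intro c _
    rw [eval₂_monomial]

/-- a common exponent for the growth of finitely many sequences -/
theorem RED_growth (f : ℕ → ℕ → ℤ) (h : ∀ c, ∃ K : ℕ, ∀ᶠ m : ℕ in atTop, |f c m| ≤ 2 ^ (m ^ K)) (d : ℕ) :
    ∃ K : ℕ, ∀ᶠ m : ℕ in atTop, ∀ c < d, |f c m| ≤ 2 ^ (m ^ K) := by
  induction d with
  | zero => exact ⟨0, Eventually.of_forall fun m c hc => absurd hc (Nat.not_lt_zero c)⟩
  | succ d ih =>
    obtain ⟨K1, h1⟩ := ih
    obtain ⟨K2, h2⟩ := h d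
    refine ⟨max K1 K2, ?_⟩
    filter_upwards [h1, h2, eventually_ge_atTop 1] with m hm1 hm2 hm c hc
    rcases Nat.lt_succ_iff_lt_or_eq.mp hc with hc' | hc'
    · refine (hm1 c hc').trans ?_
      exact pow_le_pow_right₀ (by norm_num) (Nat.pow_le_pow_right hm (le_max_left _ _))
    · subst hc'
      refine hm2.trans ?_
      exact pow_le_pow_right₀ (by norm_num) (Nat.pow_le_pow_right hm (le_max_right _ _))

/-- polynomial against exponential -/
theorem RED_exp (J K A : ℕ) : ∀ᶠ m : ℕ in atTop, A + m ^ K < 2 ^ (m - J) := by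
  have h1 : Tendsto (fun n : ℕ => (n : ℝ) ^ K / (2 : ℝ) ^ n) atTop (nhds 0) :=
    tendsto_pow_const_div_const_pow_of_one_lt K (by norm_num)
  have h0 : Tendsto (fun n : ℕ => (A : ℝ) / (2 : ℝ) ^ n) atTop (nhds 0) := by
    have := tendsto_pow_const_div_const_pow_of_one_lt 0 (show (1 : ℝ) < 2 by norm_num)
    have h2 := this.const_mul (A : ℝ)
    simp only [mul_zero, pow_zero] at h2
    refine h2.congr ?_
    intro n
    ring
  have h2 := h0.add h1
  have hpos : (0 : ℝ) < 1 / 2 ^ (J + 1) := by positivity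
  have h3 := (tendsto_order.mp h2).2 (1 / 2 ^ (J + 1)) (by simpa using hpos)
  filter_upwards [h3, eventually_ge_atTop J] with m hm hJ
  have hm2 : (A : ℝ) + (m : ℝ) ^ K < 2 ^ m / 2 ^ (J + 1) := by
    have h4 : (0 : ℝ) < 2 ^ m := by positivity
    have h5 : ((A : ℝ) + (m : ℝ) ^ K) / 2 ^ m < 1 / 2 ^ (J + 1) := by
      rw [add_div]
      exact hm
    rw [div_lt_iff₀ h4] at h5
    calc (A : ℝ) + (m : ℝ) ^ K < 1 / 2 ^ (J + 1) * 2 ^ m := h5
      _ = 2 ^ m / 2 ^ (J + 1) := by ring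
  have hm3 : (2 : ℝ) ^ m / 2 ^ (J + 1) ≤ 2 ^ (m - J) := by
    have h6 : (2 : ℝ) ^ m = 2 ^ (m - J) * 2 ^ J := by
      rw [← pow_add]
      congr 1
      omega
    rw [h6, div_le_iff₀ (by positivity)]
    exact mul_le_mul_of_nonneg_left (pow_le_pow_right₀ (by norm_num) (by omega)) (by positivity)
  have hm4 : (((A + m ^ K : ℕ)) : ℝ) < ((2 ^ (m - J) : ℕ) : ℝ) := by
    push_cast
    linarith
  exact_mod_cast hm4

/-- a double exponential dominates -/
theorem RED_dexp (J K A : ℕ) :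
    ∀ᶠ m : ℕ in atTop, (A : ℤ) * 2 ^ (m ^ K) < 2 ^ (2 ^ (m - J)) := by
  filter_upwards [RED_exp J K A] with m hm
  have h1 : (A : ℤ) ≤ 2 ^ A := by
    exact_mod_cast (Nat.lt_two_pow_self (n := A)).le
  calc (A : ℤ) * 2 ^ (m ^ K) ≤ 2 ^ A * 2 ^ (m ^ K) := by
        exact mul_le_mul_of_nonneg_right h1 (by positivity)
    _ = 2 ^ (A + m ^ K) := by rw [pow_add]
    _ < 2 ^ (2 ^ (m - J)) := pow_lt_pow_right₀ (by norm_num) hm

/-- size of a polynomial with small coefficients -/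
theorem RED_small (e : ℕ) (H X : ℤ) (hX : 1 ≤ X) (hH : 0 ≤ H) (a : ℕ → ℤ)
    (ha : ∀ i < e + 1, |a i| ≤ H) :
    |∑ i ∈ Finset.range (e + 1), a i * X ^ i| ≤ ((e + 1 : ℕ) : ℤ) * H * X ^ e := by
  refine (Finset.abs_sum_le_sum_abs _ _).trans ?_
  have h1 : ∑ i ∈ Finset.range (e + 1), |a i * X ^ i| ≤ ∑ _i ∈ Finset.range (e + 1), H * X ^ e := by
    apply Finset.sum_le_sum
    intro i hi
    have hi' := Finset.mem_range.mp hi
    rw [abs_mul, abs_of_nonneg (show (0 : ℤ) ≤ X ^ i by positivity)]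
    exact mul_le_mul (ha i hi') (pow_le_pow_right₀ hX (by omega)) (by positivity) hH
  refine h1.trans (le_of_eq ?_)
  rw [Finset.sum_const, Finset.card_range, nsmul_eq_mul]
  ring

/-- the remainder is smaller than the divisor -/
theorem RED_lt (d : ℕ) (H X : ℤ) (hX : 1 ≤ X) (hH : 0 ≤ H) (a c : ℕ → ℤ)
    (ha : ∀ i < d, |a i| ≤ H) (hc : ∀ i < d, |c i| ≤ H) (hd : c d ≠ 0)
    (hbig : ((2 * d : ℕ) : ℤ) * H < X) :
    |∑ i ∈ Finset.range d, a i * X ^ i| < |∑ i ∈ Finset.range (d + 1), c i * X ^ i| := by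
  rcases d with _ | e
  · simp only [Finset.range_zero, Finset.sum_empty, abs_zero, zero_add, Finset.range_one,
      Finset.sum_singleton, pow_zero, mul_one]
    exact abs_pos.mpr hd
  · have h1 := RED_small e H X hX hH a ha
    have h2 := RED_small e H X hX hH c hc
    rw [Finset.sum_range_succ _ (e + 1)]
    have h3 : |c (e + 1) * X ^ (e + 1)| ≤
        |∑ i ∈ Finset.range (e + 1), c i * X ^ i + c (e + 1) * X ^ (e + 1)| +
          |∑ i ∈ Finset.range (e + 1), c i * X ^ i| := by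
      have := abs_sub (∑ i ∈ Finset.range (e + 1), c i * X ^ i + c (e + 1) * X ^ (e + 1))
        (∑ i ∈ Finset.range (e + 1), c i * X ^ i)
      simpa using this
    have hpos : (0 : ℤ) < X ^ e := by positivity
    have h4 : X ^ (e + 1) ≤ |c (e + 1) * X ^ (e + 1)| := by
      rw [abs_mul, abs_of_nonneg (show (0 : ℤ) ≤ X ^ (e + 1) by positivity)]
      have h5 : (1 : ℤ) ≤ |c (e + 1)| := Int.one_le_abs hd
      nlinarith [show (0 : ℤ) ≤ X ^ (e + 1) by positivity]
    have h6 : ((2 * (e + 1) : ℕ) : ℤ) * H * X ^ e < X ^ (e + 1) := by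
      rw [pow_succ']
      exact mul_lt_mul_of_pos_right hbig hpos
    push_cast at *
    nlinarith

theorem RED (hSEC : SEC_stmt) (hGR2 : GR2_stmt) (hPDQ : PDQ_stmt) : RED_stmt := by
  intro J g h hg hh hne
  obtain ⟨R, hR⟩ := RED_ring hSEC
  obtain ⟨-, -, -, -, -, hdich, hgrow, -⟩ := hSEC
  obtain ⟨Kg, hKg⟩ := hGR2 J g hg
  obtain ⟨Kh, hKh⟩ := hGR2 J h hh
  obtain ⟨ng, Bg, hBg, eg⟩ := hKg (max Kg Kh) (le_max_left _ _)
  obtain ⟨nh, Bh, hBh, eh⟩ := hKh (max Kg Kh) (le_max_right _ _)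
  set K := max Kg Kh with hK
  classical
  -- the degree
  let P : ℕ → Prop := fun c => ¬ ∀ᶠ m : ℕ in atTop, Bh c m = 0
  have hex : ∃ c ≤ nh, P c := by
    by_contra hcon
    push Not at hcon
    have hall : ∀ᶠ m : ℕ in atTop, ∀ c ∈ Finset.range (nh + 1), Bh c m = 0 := by
      rw [Filter.eventually_all_finset]
      intro c hc
      have hc' := Finset.mem_range.mp hc
      have := hcon c (by omega)
      simpa [P] using this
    obtain ⟨m, hm1, hm2, hm3⟩ := (hall.and (eh.and hne)).exists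
    rw [Finset.sum_eq_zero (fun c hc => by rw [hm1 c hc, zero_mul])] at hm2
    have : (2 : ℤ) ^ m ^ K ≠ 0 := by positivity
    exact hm3 ((mul_eq_zero.mp hm2).resolve_left this)
  obtain ⟨c0, hc0, hP0⟩ := hex
  obtain ⟨d, hd⟩ : ∃ d, d = Nat.findGreatest P nh := ⟨_, rfl⟩
  have hPd : P d := by
    rw [hd]
    exact Nat.findGreatest_spec hc0 hP0
  have hdle : d ≤ nh := by
    rw [hd]
    exact Nat.findGreatest_le nh
  have hdmax : ∀ c, d < c → c ≤ nh → ∀ᶠ m : ℕ in atTop, Bh c m = 0 := by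
    intro c h1 h2
    rw [hd] at h1
    have := Nat.findGreatest_is_greatest h1 h2
    simpa [P] using this
  have hbne : ∀ᶠ m : ℕ in atTop, Bh d m ≠ 0 := by
    rcases hdich (Bh d) (hBh d) with h1 | h1
    · exact absurd h1 hPd
    · exact h1
  -- the polynomials
  obtain ⟨ag, hag⟩ : ∃ ag : ℕ → R, ∀ c, (ag c : ℕ → ℤ) = Bg c :=
    ⟨fun c => ⟨Bg c, (hR _).mpr (hBg c)⟩, fun c => rfl⟩
  obtain ⟨ah, hah⟩ : ∃ ah : ℕ → R, ∀ c, (ah c : ℕ → ℤ) = Bh c :=
    ⟨fun c => ⟨Bh c, (hR _).mpr (hBh c)⟩, fun c => rfl⟩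
  obtain ⟨hGdeg, -, hGev⟩ := RED_poly ng ag
  obtain ⟨hHdeg, hHco, hHev⟩ := RED_poly d ah
  set G := ∑ c ∈ Finset.range (ng + 1), monomial c (ag c) with hGdef
  set H := ∑ c ∈ Finset.range (d + 1), monomial c (ah c) with hHdef
  obtain ⟨q, r, hqr, hr⟩ := hPDQ R d H hHdeg ng G hGdeg
  rw [hHco] at hqr
  set N := ng + 1 - d with hN
  -- evaluation
  let φ : ℕ → (R →+* ℤ) := fun m => (Pi.evalRingHom (fun _ : ℕ => ℤ) m).comp R.subtype
  have hφ : ∀ (m : ℕ) (a : R), φ m a = (a : ℕ → ℤ) m := fun m a => rfl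
  have hev : ∀ (m : ℕ) (x : ℤ), (Bh d m) ^ N * ∑ c ∈ Finset.range (ng + 1), Bg c m * x ^ c =
      (∑ c ∈ Finset.range (q.natDegree + 1), (q.coeff c : ℕ → ℤ) m * x ^ c) *
        ∑ c ∈ Finset.range (d + 1), Bh c m * x ^ c +
      ∑ c ∈ Finset.range d, (r.coeff c : ℕ → ℤ) m * x ^ c := by
    intro m x
    have h1 := congrArg (eval₂ (φ m) x) hqr
    rw [eval₂_mul, eval₂_add, eval₂_mul, eval₂_C, hGev, hHev, map_pow, hφ, hah] at h1
    have h2 : eval₂ (φ m) x q = ∑ c ∈ Finset.range (q.natDegree + 1), (q.coeff c : ℕ → ℤ) m * x ^ c := by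
      rw [eval₂_eq_sum_range]
      rfl
    have h3 : eval₂ (φ m) x r = ∑ c ∈ Finset.range d, (r.coeff c : ℕ → ℤ) m * x ^ c := by
      rcases Nat.eq_zero_or_pos d with hd0 | hd0
      · have hr0 : r = 0 := by
          ext1 i
          rw [hr i (by omega), coeff_zero]
        rw [hr0, hd0]
        simp
      · have hdeg : r.natDegree < d := by
          have : r.natDegree ≤ d - 1 := by
            rw [natDegree_le_iff_coeff_eq_zero]
            intro i hi
            exact hr i (by omega)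
          omega
        rw [eval₂_eq_sum_range' (φ m) hdeg x]
        rfl
    rw [h2, h3] at h1
    have h4 : ∀ c, φ m (ag c) = Bg c m := fun c => by rw [hφ, hag]
    have h5 : ∀ c, φ m (ah c) = Bh c m := fun c => by rw [hφ, hah]
    simp only [h4, h5] at h1
    exact h1
  -- growth
  obtain ⟨K1, hK1⟩ := RED_growth Bh (fun c => hgrow _ (hBh c)) d
  obtain ⟨K2, hK2⟩ := RED_growth (fun c => (r.coeff c : ℕ → ℤ))
    (fun c => hgrow _ ((hR _).mp (r.coeff c).2)) d
  have htrunc : ∀ᶠ m : ℕ in atTop, ∀ c ∈ Finset.range (nh + 1), d < c → Bh c m = 0 := by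
    rw [Filter.eventually_all_finset]
    intro c hc
    have hc' := Finset.mem_range.mp hc
    by_cases hdc : d < c
    · filter_upwards [hdmax c hdc (by omega)] with m hm _
      exact hm
    · exact Eventually.of_forall fun m h1 => absurd h1 hdc
  have hub : ∀ m, ((ah d ^ N : R) : ℕ → ℤ) m = (Bh d m) ^ N := by
    intro m
    rw [← hφ, map_pow, hφ, hah]
  refine ⟨((ah d ^ N : R) : ℕ → ℤ), q.natDegree, fun c => (q.coeff c : ℕ → ℤ),
    (hR _).mp (ah d ^ N).2, fun c => (hR _).mp (q.coeff c).2, ?_, ?_⟩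
  · filter_upwards [hbne] with m hm
    rw [hub]
    exact pow_ne_zero _ hm
  · filter_upwards [hbne, eg, eh, hK1, hK2, htrunc, RED_dexp J (max K1 K2) (2 * d),
      eventually_ge_atTop 1] with m hb1 hg1 hh1 hk1 hk2 ht hbig hm1 D hD
    rw [hub]
    set X : ℤ := 2 ^ (2 ^ (m - J)) with hXdef
    have hX1 : 1 ≤ X := by
      rw [hXdef]
      exact one_le_pow₀ (by norm_num)
    have hsum : ∑ c ∈ Finset.range (nh + 1), Bh c m * X ^ c =
        ∑ c ∈ Finset.range (d + 1), Bh c m * X ^ c := by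
      symm
      apply Finset.sum_subset
      · intro c hc
        have := Finset.mem_range.mp hc
        exact Finset.mem_range.mpr (by omega)
      · intro c hc hc2
        have : d < c := by
          by_contra hcon
          exact hc2 (Finset.mem_range.mpr (by omega))
        rw [ht c hc this, zero_mul]
    rw [hsum] at hh1
    have hEv := hev m X
    have hb : ∀ i < d, |(r.coeff i : ℕ → ℤ) m| ≤ 2 ^ (m ^ (max K1 K2)) := by
      intro i hi
      refine (hk2 i hi).trans ?_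
      exact pow_le_pow_right₀ (by norm_num) (Nat.pow_le_pow_right hm1 (le_max_right _ _))
    have hc : ∀ i < d, |Bh i m| ≤ 2 ^ (m ^ (max K1 K2)) := by
      intro i hi
      refine (hk1 i hi).trans ?_
      exact pow_le_pow_right₀ (by norm_num) (Nat.pow_le_pow_right hm1 (le_max_left _ _))
    have hlt := RED_lt d (2 ^ (m ^ (max K1 K2))) X hX1 (by positivity)
      (fun i => (r.coeff i : ℕ → ℤ) m) (fun i => Bh i m) hb hc hb1 hbig
    set rm := ∑ c ∈ Finset.range d, (r.coeff c : ℕ → ℤ) m * X ^ c with hrm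
    set Hm := ∑ c ∈ Finset.range (d + 1), Bh c m * X ^ c with hHm
    set Gm := ∑ c ∈ Finset.range (ng + 1), Bg c m * X ^ c with hGm
    set qm := ∑ c ∈ Finset.range (q.natDegree + 1), (q.coeff c : ℕ → ℤ) m * X ^ c with hqm
    have hkey : (Bh d m ^ N * D - qm) * Hm = rm := by
      have h1 : Hm * D = Gm := by
        rw [← hh1, ← hg1, ← hD]
        ring
      have h2 : Bh d m ^ N * D * Hm = Bh d m ^ N * Gm := by
        rw [← h1]
        ring
      rw [sub_mul, h2, hEv]
      ring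
    by_contra hcon
    have hne2 : Bh d m ^ N * D - qm ≠ 0 := sub_ne_zero.mpr hcon
    have h3 : |Hm| ≤ |rm| := by
      rw [← hkey, abs_mul]
      have h4 := Int.one_le_abs hne2
      nlinarith [abs_nonneg Hm]
    exact absurd hlt (not_lt.mpr h3)

end Pool.Agent.NoFormula
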